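import Pool.Agent.W2helper9.OP.Stm

/-! Piece GFIN of project OP (helper9): almost all places are places of good reduction. -/

set_option autoImplicit false

open MvPolynomial IsDedekindDomain NumberField

namespace Pool.Agent.W2helper69.OP

open Pool.Agent.Helper819.Dyn (Tuple IsEnd)
open Pool.Agent.W2helper9.OP

/-- The coefficients of a polynomial over `K` are in the valuation ring of almost every place. -/
lemma fin_coeff {K : Type} [Field K] [NumberField K] {σ : Type} (P : MvPolynomial σ K) :
    {v : HeightOneSpectrum (𝓞 K) |
      P ∉ Set.range (map (algebraMap (v.valuation K).valuationSubring K))}.Finite := by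
  refine Set.Finite.subset (P.coeffs.finite_toSet.biUnion
    fun a _ => HeightOneSpectrum.Support.finite (𝓞 K) (K := K) a) ?_
  intro v hv
  by_contra h
  apply hv
  rw [mem_range_map_iff_coeffs_subset]
  intro a ha
  have h1 : v.valuation K a ≤ 1 := by
    by_contra h2
    push Not at h2
    exact h (Set.mem_biUnion ha h2)
  exact ⟨⟨a, h1⟩, rfl⟩

/-- GFIN -/
theorem p_gfin : P_GFIN := by
  intro K _ _ N d F hF
  have hN : ∀ j : Fin (N + 1), ∃ (r : ℕ) (A : Fin (N + 1) → MvPolynomial (Fin (N + 1)) K),
      ∑ i, A i * F i = X j ^ r := by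
    intro j
    have h1 : (X j : MvPolynomial (Fin (N + 1)) K) ∈ (Ideal.span (Set.range F)).radical := by
      rw [← vanishingIdeal_zeroLocus_eq_radical (K := AlgebraicClosure K), mem_vanishingIdeal_iff]
      intro x hx
      have h2 : x = 0 := hF.2 x (fun i => hx (F i) (Ideal.subset_span ⟨i, rfl⟩))
      simp [h2]
    obtain ⟨r, hr⟩ := h1
    rw [Ideal.mem_span_range_iff_exists_fun] at hr
    obtain ⟨A, hA⟩ := hr
    exact ⟨r, A, hA⟩
  choose r A hA using hN
  have fin1 : (⋃ i, {v : HeightOneSpectrum (𝓞 K) |
      F i ∉ Set.range (map (algebraMap (v.valuation K).valuationSubring K))}).Finite :=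
    Set.finite_iUnion fun i => fin_coeff (F i)
  have fin2 : (⋃ j, ⋃ i, {v : HeightOneSpectrum (𝓞 K) |
      A j i ∉ Set.range (map (algebraMap (v.valuation K).valuationSubring K))}).Finite :=
    Set.finite_iUnion fun j => Set.finite_iUnion fun i => fin_coeff (A j i)
  refine (fin1.union fin2).subset ?_
  intro v hv
  by_contra h
  rw [Set.mem_union, not_or, Set.mem_iUnion, not_exists, Set.mem_iUnion, not_exists] at h
  obtain ⟨h1, h2⟩ := h
  have h1' : ∀ i, F i ∈ Set.range (map (algebraMap (v.valuation K).valuationSubring K)) :=
    fun i => not_not.1 (h1 i)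
  have h2' : ∀ j i, A j i ∈ Set.range (map (algebraMap (v.valuation K).valuationSubring K)) := by
    intro j i
    have h3 := h2 j
    rw [Set.mem_iUnion, not_exists] at h3
    exact not_not.1 (h3 i)
  choose G hG using h1'
  choose B hB using h2'
  have hinj : Function.Injective (algebraMap (v.valuation K).valuationSubring K) :=
    Subtype.val_injective
  apply hv
  refine ⟨1, G, fun i => by rw [hG]; simp, ?_, ?_⟩
  · intro i
    have h3 : (G i).IsHomogeneous d := by
      refine IsHomogeneous.of_map hinj ?_
      rw [hG]
      exact hF.1 i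
    exact h3.map _
  · intro x hx
    funext j
    have key : ∑ i, B j i * G i = X j ^ r j := by
      apply map_injective _ hinj
      rw [map_sum, map_pow, map_X, ← hA j]
      exact Finset.sum_congr rfl fun i _ => by rw [map_mul, hB, hG]
    have h4 := congrArg (fun p => aeval x
      (map (IsLocalRing.residue (v.valuation K).valuationSubring) p)) key
    simp only [map_sum, map_mul, hx, mul_zero, Finset.sum_const_zero, map_pow, map_X, aeval_X] at h4
    exact eq_zero_of_pow_eq_zero h4.symm

end Pool.Agent.W2helper69.OP
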